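import Mathlib
import Pool.Agent.R376.AbsPerm

namespace Pool.Agent.Results.MP_cf7092_nt.PermAbs

open Pool.Agent.R376.AbsPerm

/-- For every odd prime `p`, the permanent of the `p × p` matrix `[|j - k|]` (rows and columns
indexed by `Fin p`; shifting both indices by `1` does not change `|j - k|`) satisfies
`2 per + 1 ≡ 0 mod p`. -/
theorem result (p : ℕ) (hp : p.Prime) (hodd : p ≠ 2) :
    (p : ℤ) ∣ 2 * (Matrix.of (fun j k : Fin p => |(j : ℤ) - (k : ℤ)|)).permanent + 1 := by
  have : Fact p.Prime := ⟨hp⟩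
  have h := permanent_D (p := p) 0 hodd
  have h1 : D p 0 = Matrix.of (fun j k : Fin p => |(j : ℤ) - (k : ℤ)|) := by
    unfold D
    ext j k
    simp
  rw [h1] at h
  simpa using h

end Pool.Agent.Results.MP_cf7092_nt.PermAbs
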